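import Pool.Agent.Q113.HW.Top

/-!
Change of the base field for `n`-central polynomials.
-/

set_option autoImplicit false

namespace Q113.HW

open Matrix

section Gen

variable {σ : Type*} {n : ℕ}

/-- generic matrices -/
noncomputable def gm (R : Type*) [CommRing R] (σ : Type*) (n : ℕ) :
    σ → Matrix (Fin n) (Fin n) (MvPolynomial (σ × Fin n × Fin n) R) :=
  fun s => Matrix.of fun i j => MvPolynomial.X (s, i, j)

theorem spec_gm {R B : Type*} [CommRing R] [CommRing B] [Algebra R B]
    (X : σ → Matrix (Fin n) (Fin n) B) (g : FreeAlgebra R σ) :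
    (MvPolynomial.aeval (R := R) (fun p : σ × Fin n × Fin n => X p.1 p.2.1 p.2.2)).mapMatrix
      (FreeAlgebra.lift R (gm R σ n) g) = FreeAlgebra.lift R X g := by
  have : (MvPolynomial.aeval (R := R)
      (fun p : σ × Fin n × Fin n => X p.1 p.2.1 p.2.2)).mapMatrix.comp
      (FreeAlgebra.lift R (gm R σ n)) = FreeAlgebra.lift R X := by
    apply FreeAlgebra.hom_ext
    funext s
    ext i j
    simp [gm]
  exact DFunLike.congr_fun this g

theorem aeval_comb {R B : Type*} [CommRing R] [CommRing B] [Algebra R B]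
    (X : σ → Matrix (Fin n) (Fin n) B) (g : FreeAlgebra R σ) (c : Fin n → Fin n → ℤ) :
    MvPolynomial.aeval (R := R) (fun p : σ × Fin n × Fin n => X p.1 p.2.1 p.2.2)
        (∑ i, ∑ j, c i j • (FreeAlgebra.lift R (gm R σ n) g) i j) =
      ∑ i, ∑ j, c i j • (FreeAlgebra.lift R X g) i j := by
  rw [map_sum]
  refine Finset.sum_congr rfl fun i _ => ?_
  rw [map_sum]
  refine Finset.sum_congr rfl fun j _ => ?_
  rw [map_zsmul, ← spec_gm X g]
  rfl

/-- Linear conditions on the values over an infinite field `L ⊇ R` hold over all `R`-algebras. -/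
theorem cond {R L : Type*} [CommRing R] [Field L] [Infinite L] [Algebra R L]
    (hinj : Function.Injective (algebraMap R L)) (g : FreeAlgebra R σ) (c : Fin n → Fin n → ℤ)
    (h : ∀ X : σ → Matrix (Fin n) (Fin n) L,
      ∑ i, ∑ j, c i j • (FreeAlgebra.lift R X g) i j = 0)
    {B : Type*} [CommRing B] [Algebra R B] (X : σ → Matrix (Fin n) (Fin n) B) :
    ∑ i, ∑ j, c i j • (FreeAlgebra.lift R X g) i j = 0 := by
  have hP0 : (∑ i, ∑ j, c i j • (FreeAlgebra.lift R (gm R σ n) g) i j :
      MvPolynomial (σ × Fin n × Fin n) R) = 0 := by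
    apply MvPolynomial.map_injective (algebraMap R L) hinj
    rw [map_zero]
    apply MvPolynomial.funext
    intro x
    rw [map_zero, MvPolynomial.eval_map]
    exact (aeval_comb (fun s => Matrix.of fun i j => x (s, i, j)) g c).trans (h _)
  rw [← aeval_comb, hP0, map_zero]

theorem sum_entry {C : Type*} [CommRing C] (M : Matrix (Fin n) (Fin n) C) (a b : Fin n) :
    ∑ i, ∑ j, (if i = a ∧ j = b then (1 : ℤ) else 0) • M i j = M a b := by
  classical
  rw [Finset.sum_eq_single a, Finset.sum_eq_single b]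
  · simp
  · intro j _ hj; simp [hj]
  · intro h; exact absurd (Finset.mem_univ _) h
  · intro i _ hi
    exact Finset.sum_eq_zero fun j _ => by simp [hi]
  · intro h; exact absurd (Finset.mem_univ _) h

theorem sum_diff {C : Type*} [CommRing C] (M : Matrix (Fin n) (Fin n) C) (a b : Fin n) :
    ∑ i, ∑ j, ((if i = a ∧ j = a then (1 : ℤ) else 0) - (if i = b ∧ j = b then (1 : ℤ) else 0)) •
      M i j = M a a - M b b := by
  simp only [sub_smul, Finset.sum_sub_distrib]
  rw [sum_entry, sum_entry]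

theorem sum_tr {C : Type*} [CommRing C] (M : Matrix (Fin n) (Fin n) C) :
    ∑ i, ∑ j, (if i = j then (1 : ℤ) else 0) • M i j = M.trace := by
  unfold Matrix.trace
  refine Finset.sum_congr rfl fun i _ => ?_
  rw [Finset.sum_eq_single i]
  · simp
  · intro j _ hj; simp [Ne.symm hj]
  · intro h; exact absurd (Finset.mem_univ _) h

/-- Polynomials with coefficients in a subring. -/
theorem exists_coeffs {L : Type*} [Field L] (f : FreeAlgebra L σ) :
    ∃ S : Finset L, ∀ R : Subring L, (S : Set L) ⊆ R → ∃ g : FreeAlgebra R σ,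
      ∀ X : σ → Matrix (Fin n) (Fin n) L, FreeAlgebra.lift R X g = FreeAlgebra.lift L X f := by
  classical
  induction f using FreeAlgebra.induction with
  | grade0 r =>
    refine ⟨{r}, fun R hR => ⟨algebraMap R _ ⟨r, hR (by simp)⟩, fun X => ?_⟩⟩
    rw [AlgHom.commutes, AlgHom.commutes]
    rfl
  | grade1 a =>
    refine ⟨∅, fun R _ => ⟨FreeAlgebra.ι R a, fun X => ?_⟩⟩
    simp
  | mul f g hf hg =>
    obtain ⟨S, hS⟩ := hf
    obtain ⟨S', hS'⟩ := hg
    refine ⟨S ∪ S', fun R hR => ?_⟩
    obtain ⟨u, hu⟩ := hS R (fun x hx => hR (by simp [Finset.mem_coe.1 hx]))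
    obtain ⟨v, hv⟩ := hS' R (fun x hx => hR (by simp [Finset.mem_coe.1 hx]))
    exact ⟨u * v, fun X => by rw [map_mul, map_mul, hu, hv]⟩
  | add f g hf hg =>
    obtain ⟨S, hS⟩ := hf
    obtain ⟨S', hS'⟩ := hg
    refine ⟨S ∪ S', fun R hR => ?_⟩
    obtain ⟨u, hu⟩ := hS R (fun x hx => hR (by simp [Finset.mem_coe.1 hx]))
    obtain ⟨v, hv⟩ := hS' R (fun x hx => hR (by simp [Finset.mem_coe.1 hx]))
    exact ⟨u + v, fun X => by rw [map_add, map_add, hu, hv]⟩

theorem lift_natural {R B C : Type*} [CommRing R] [CommRing B] [Algebra R B] [CommRing C]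
    [Algebra R C] (ψ : B →ₐ[R] C) (X : σ → Matrix (Fin n) (Fin n) B) (g : FreeAlgebra R σ) :
    ψ.mapMatrix (FreeAlgebra.lift R X g) = FreeAlgebra.lift R (fun s => ψ.mapMatrix (X s)) g := by
  have : ψ.mapMatrix.comp (FreeAlgebra.lift R X) =
      FreeAlgebra.lift R (fun s => ψ.mapMatrix (X s)) := by
    apply FreeAlgebra.hom_ext
    funext s
    simp
  exact DFunLike.congr_fun this g

/-- **Specialisation.** -/
theorem specialise [Fintype σ] {L : Type*} [Field L] [Infinite L] (f : FreeAlgebra L σ)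
    (hf : TT n f) :
    ∃ S : Finset L, ∀ R : Subring L, (S : Set L) ⊆ R → ∀ (k : Type*) [Field k]
      (_ : R →+* k), ∃ f' : FreeAlgebra k σ, TT n f' := by
  classical
  obtain ⟨S, hS⟩ := exists_coeffs (n := n) f
  obtain ⟨A, hA⟩ := hf.ne
  obtain ⟨a, b, hab⟩ : ∃ a b, FreeAlgebra.lift L A f a b ≠ 0 := by
    by_contra hcon
    push Not at hcon
    apply hA
    ext a b
    exact hcon a b
  set r := FreeAlgebra.lift L A f a b with hr
  refine ⟨S ∪ (Finset.univ.image (fun p : σ × Fin n × Fin n => A p.1 p.2.1 p.2.2) ∪ {r⁻¹}),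
    fun R hR k _ φ => ?_⟩
  obtain ⟨g, hg⟩ := hS R (fun x hx => hR (by simp [Finset.mem_coe.1 hx]))
  have hAR : ∀ s i j, A s i j ∈ R := fun s i j => hR (by
    simp only [Finset.coe_union, Set.mem_union, Finset.coe_image]
    right; left
    exact ⟨(s, i, j), by simp, rfl⟩)
  have hrR : r⁻¹ ∈ R := hR (by simp)
  let _ : Algebra R k := φ.toAlgebra
  have hinj : Function.Injective (algebraMap R L) := Subtype.val_injective
  have hf' : ∀ X : σ → Matrix (Fin n) (Fin n) k, FreeAlgebra.lift k X
      (FreeAlgebra.lift R (FreeAlgebra.ι k : σ → FreeAlgebra k σ) g) = FreeAlgebra.lift R X g := by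
    intro X
    have : ((FreeAlgebra.lift k X).restrictScalars R).comp
        (FreeAlgebra.lift R (FreeAlgebra.ι k : σ → FreeAlgebra k σ)) = FreeAlgebra.lift R X := by
      apply FreeAlgebra.hom_ext
      funext s
      simp
    exact DFunLike.congr_fun this g
  refine ⟨FreeAlgebra.lift R (FreeAlgebra.ι k : σ → FreeAlgebra k σ) g, ?_, ?_, ?_⟩
  · intro X
    rw [map_pow, hf', ← map_pow, scalar_iff]
    have hL : ∀ Y : σ → Matrix (Fin n) (Fin n) L, ∃ c : L,
        FreeAlgebra.lift R Y (g ^ n) = Matrix.scalar (Fin n) c := by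
      intro Y
      rw [map_pow, hg, ← map_pow]
      exact hf.scal Y
    constructor
    · intro i j hij
      have h := cond hinj (g ^ n) (fun i' j' => if i' = i ∧ j' = j then 1 else 0) (fun Y => by
        rw [sum_entry]
        exact ((scalar_iff _).1 (hL Y)).1 i j hij) X
      rwa [sum_entry] at h
    · intro i j
      rw [← sub_eq_zero, ← sum_diff]
      exact cond hinj (g ^ n) _ (fun Y => by
        rw [sum_diff, sub_eq_zero]
        exact ((scalar_iff _).1 (hL Y)).2 i j) X
  · intro X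
    rw [hf', ← sum_tr]
    exact cond hinj g _ (fun Y => by
      rw [sum_tr, hg]
      exact hf.tr Y) X
  · let AR : σ → Matrix (Fin n) (Fin n) R := fun s => Matrix.of fun i j => ⟨A s i j, hAR s i j⟩
    refine ⟨fun s => (Algebra.ofId R k).mapMatrix (AR s), ?_⟩
    intro h0
    rw [hf', ← lift_natural] at h0
    have h1 : (FreeAlgebra.lift R AR g a b : L) = r := by
      have h2 := lift_natural (Algebra.ofId R L) AR g
      have h3 : (fun s => (Algebra.ofId R L).mapMatrix (AR s)) = A := by
        funext s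
        ext i j
        rfl
      rw [h3, hg] at h2
      rw [hr, ← h2]
      rfl
    have h4 : φ (FreeAlgebra.lift R AR g a b) = 0 := congrFun (congrFun h0 a) b
    have h5 : FreeAlgebra.lift R AR g a b * ⟨r⁻¹, hrR⟩ = 1 := by
      apply Subtype.ext
      show (FreeAlgebra.lift R AR g a b : L) * r⁻¹ = 1
      rw [h1, mul_inv_cancel₀ hab]
    have h6 := congrArg φ h5
    rw [map_mul, h4, zero_mul, map_one] at h6
    exact zero_ne_one h6

end Gen

section Corollaries

universe u v w

variable {σ : Type*} [Fintype σ] {n : ℕ}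

/-- finite extensions -/
theorem descend_finite {K : Type u} {L : Type v} [Field K] [Field L]
    [Algebra K L] [Infinite L] (f : FreeAlgebra L σ) (hf : TT n f) :
    ∃ (K' : Type v) (_ : Field K') (_ : Algebra K K'), Module.Finite K K' ∧
      ∃ f' : FreeAlgebra K' σ, TT n f' := by
  obtain ⟨S, hS⟩ := specialise f hf
  let A := Algebra.adjoin K (S : Set L)
  have hfg : A.FG := Subalgebra.fg_adjoin_finset S
  have hft : Algebra.FiniteType K A := A.fg_iff_finiteType.mp hfg
  obtain ⟨m, hm⟩ := Ideal.exists_maximal A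
  let _ : Field (A ⧸ m) := Ideal.Quotient.field m
  have : Algebra.FiniteType K (A ⧸ m) := Algebra.FiniteType.of_surjective (Ideal.Quotient.mkₐ K m)
    (Ideal.Quotient.mkₐ_surjective K m)
  have hfin : Module.Finite K (A ⧸ m) := finite_of_finite_type_of_isJacobsonRing K (A ⧸ m)
  refine ⟨A ⧸ m, inferInstance, inferInstance, hfin, ?_⟩
  exact hS A.toSubring (fun x hx => Algebra.subset_adjoin hx) (A ⧸ m)
    (Ideal.Quotient.mk m)

set_option synthInstance.maxHeartbeats 400000 in
/-- algebraically closed fields -/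
theorem transfer_closed {F : Type u} {L : Type v} {k : Type w} [Field F] [Field L]
    [Algebra F L] [Infinite L] [Field k] [Algebra F k] [IsAlgClosed k]
    (f : FreeAlgebra L σ) (hf : TT n f) : ∃ f' : FreeAlgebra k σ, TT n f' := by
  obtain ⟨S, hS⟩ := specialise f hf
  let A := Algebra.adjoin F (S : Set L)
  have hfg : A.FG := Subalgebra.fg_adjoin_finset S
  have hft : Algebra.FiniteType F A := A.fg_iff_finiteType.mp hfg
  obtain ⟨m, hm⟩ := Ideal.exists_maximal A
  let _ : Field (A ⧸ m) := Ideal.Quotient.field m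
  have : Algebra.FiniteType F (A ⧸ m) := Algebra.FiniteType.of_surjective (Ideal.Quotient.mkₐ F m)
    (Ideal.Quotient.mkₐ_surjective F m)
  have hfin : Module.Finite F (A ⧸ m) := finite_of_finite_type_of_isJacobsonRing F (A ⧸ m)
  have hal : Algebra.IsAlgebraic F (A ⧸ m) := Algebra.IsAlgebraic.of_finite F (A ⧸ m)
  let ψ : (A ⧸ m) →ₐ[F] k := IsAlgClosed.lift
  exact hS A.toSubring (fun x hx => Algebra.subset_adjoin hx) k
    ((ψ : (A ⧸ m) →+* k).comp (Ideal.Quotient.mk m))

/-- from characteristic `0` to large characteristic -/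
theorem large_char {L : Type v} [Field L] [CharZero L] (f : FreeAlgebra L σ) (hf : TT n f) :
    ∃ B : ℕ, ∀ p : ℕ, p.Prime → B < p → ∀ (k : Type w) [Field k] [CharP k p] [IsAlgClosed k],
      ∃ f' : FreeAlgebra k σ, TT n f' := by
  classical
  obtain ⟨g, hg⟩ := transfer_closed (F := ℚ) (k := AlgebraicClosure ℚ) f hf
  obtain ⟨S, hS⟩ := specialise g hg
  have hal : Algebra.IsAlgebraic ℤ (AlgebraicClosure ℚ) :=
    (IsFractionRing.comap_isAlgebraic_iff (A := ℤ) (K := ℚ) (C := AlgebraicClosure ℚ)).2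
      (AlgebraicClosure.isAlgebraic ℚ)
  obtain ⟨N, hN0, hN⟩ := Algebra.IsAlgebraic.exists_integral_multiples ℤ S
  refine ⟨N.natAbs, fun p hp hBp k _ _ _ => ?_⟩
  have hpN : ¬ (p : ℤ) ∣ N := by
    intro h
    have := Nat.le_of_dvd (Int.natAbs_pos.2 hN0) (Int.natCast_dvd.1 h)
    omega
  -- a valuation ring with `p` in its maximal ideal
  have hIt : Ideal.span {((p : (⊥ : Subring (AlgebraicClosure ℚ))))} ≠ ⊤ := by
    rw [Ne, Ideal.span_singleton_eq_top]
    intro hu
    obtain ⟨a, ha⟩ := hu.exists_right_inv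
    obtain ⟨z, hz⟩ := Subring.mem_bot.1 a.2
    have h1 : ((p : ℤ) * z : ℤ) = 1 := by
      have h2 := congrArg (fun x : (⊥ : Subring (AlgebraicClosure ℚ)) =>
        (x : AlgebraicClosure ℚ)) ha
      simp only [Subring.coe_mul, Subring.coe_one, Subring.coe_natCast, ← hz] at h2
      exact_mod_cast h2
    have h3 : IsUnit (p : ℤ) := IsUnit.of_mul_eq_one z h1
    rw [Int.isUnit_iff_natAbs_eq] at h3
    exact hp.one_lt.ne' (by simpa using h3)
  obtain ⟨V, -, hVp⟩ := Ideal.image_subset_nonunits_valuationSubring _ hIt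
  have hpV : (p : AlgebraicClosure ℚ) ∈ V.nonunits :=
    hVp ⟨_, Ideal.subset_span rfl, by simp⟩
  have hNV : (N : AlgebraicClosure ℚ)⁻¹ ∈ V := by
    by_contra hcon
    have h1 : (N : AlgebraicClosure ℚ) ∈ V.nonunits :=
      (ValuationSubring.mem_nonunits_iff_or V).2 (Or.inr hcon)
    have hco : IsCoprime (p : ℤ) N := by
      rw [Int.isCoprime_iff_gcd_eq_one]
      exact (Nat.Prime.coprime_iff_not_dvd hp).2 (fun h => hpN (Int.natCast_dvd.2 h))
    obtain ⟨a, b, hab⟩ := hco
    have h2 : ((p : ℤ) : V) ∈ IsLocalRing.maximalIdeal V :=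
      ValuationSubring.coe_mem_nonunits_iff.1 (by simpa using hpV)
    have h3 : ((N : ℤ) : V) ∈ IsLocalRing.maximalIdeal V :=
      ValuationSubring.coe_mem_nonunits_iff.1 (by simpa using h1)
    have h4 : ((a : ℤ) : V) * ((p : ℤ) : V) + ((b : ℤ) : V) * ((N : ℤ) : V) = 1 := by
      rw [← Int.cast_mul, ← Int.cast_mul, ← Int.cast_add, hab, Int.cast_one]
    have h5 : (1 : V) ∈ IsLocalRing.maximalIdeal V := by
      rw [← h4]
      exact Ideal.add_mem _ (Ideal.mul_mem_left _ _ h2) (Ideal.mul_mem_left _ _ h3)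
    exact (Ideal.ne_top_iff_one _).1 (IsLocalRing.maximalIdeal.isMaximal V).ne_top h5
  have hSV : (S : Set (AlgebraicClosure ℚ)) ⊆ V.toSubring := by
    intro z hz
    have h1 := hN z hz
    have h2 : (N • z) ∈ V := by
      have h3 : IsIntegral V (N • z) := by
        exact h1.tower_top
      obtain ⟨y, hy⟩ := IsIntegrallyClosed.isIntegral_iff.1 h3
      rw [← hy]
      exact y.2
    have h4 : z = (N : AlgebraicClosure ℚ)⁻¹ * (N • z) := by
      rw [zsmul_eq_mul, inv_mul_cancel_left₀]
      exact_mod_cast hN0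
    rw [h4]
    exact V.toSubring.mul_mem hNV h2
  let κ := IsLocalRing.ResidueField V
  have hκp : (p : κ) = 0 := by
    have h1 : (⟨(p : AlgebraicClosure ℚ), ValuationSubring.nonunits_subset hpV⟩ : V) ∈
        IsLocalRing.maximalIdeal V := ValuationSubring.coe_mem_nonunits_iff.1 hpV
    have h2 := (IsLocalRing.residue_eq_zero_iff _).2 h1
    rw [← h2, ← map_natCast (IsLocalRing.residue V) p]
    rfl
  have : Fact p.Prime := ⟨hp⟩
  have : CharP κ p := (CharP.charP_iff_prime_eq_zero hp).2 hκp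
  obtain ⟨f1, hf1⟩ := hS V.toSubring hSV (AlgebraicClosure κ)
    ((algebraMap κ (AlgebraicClosure κ)).comp (IsLocalRing.residue V))
  have : CharP (AlgebraicClosure κ) p := charP_of_injective_algebraMap
    (algebraMap κ (AlgebraicClosure κ)).injective p
  let _ : Algebra (ZMod p) (AlgebraicClosure κ) := ZMod.algebra _ p
  let _ : Algebra (ZMod p) k := ZMod.algebra _ p
  exact transfer_closed (F := ZMod p) f1 hf1

end Corollaries

end Q113.HW
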