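import Pool.Agent.Q113.HW.Words

/-!
The normal form.
-/

set_option autoImplicit false

namespace Q113.HW

open Matrix Polynomial Pool.Agent.H552R3.PC Pool.Agent.TH82.NC

variable {K : Type*} [Field K] {n : ℕ}

theorem sub_ι {σ τ : Type*} (L : σ → (FreeAlgebra K τ)[X]) (a : σ) :
    sub L (FreeAlgebra.ι K a) = L a := by simp [sub]

theorem ι_word {σ : Type*} (a : σ) : FreeAlgebra.ι K a = word K [a] := by simp [word]

/-! ### multihomogeneous components -/

/-- scaling of the variable `i` -/
noncomputable def Lsc (K : Type*) [Field K] (i : Fin 2) : Fin 2 → (FreeAlgebra K (Fin 2))[X] :=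
  fun s => if s = i then X * C (FreeAlgebra.ι K s) else C (FreeAlgebra.ι K s)

theorem Lsc_word (i : Fin 2) (l : List (Fin 2)) :
    sub (Lsc K i) (word K l) = X ^ (l.count i) * C (word K l) := by
  induction l with
  | nil => simp [word]
  | cons a l ih =>
    rw [word_cons, map_mul, ih, sub_ι, C_mul]
    have hc := (commute_X_pow (C (FreeAlgebra.ι K a)) (l.count i)).eq
    unfold Lsc
    by_cases ha : a = i
    · subst ha
      rw [if_pos rfl, List.count_cons_self, pow_succ']
      rw [mul_assoc X, ← mul_assoc (C _) (X ^ _), ← hc]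
      simp only [mul_assoc]
    · rw [if_neg ha, List.count_cons_of_ne ha]
      rw [← mul_assoc, ← hc]
      simp only [mul_assoc]

theorem Lsc_coeff (i : Fin 2) {W : List (Fin 2) → Prop} {f : FreeAlgebra K (Fin 2)}
    (hf : f ∈ Sp K W) (k : ℕ) :
    (sub (Lsc K i) f).coeff k ∈ Sp K (fun l => W l ∧ l.count i = k) := by
  refine coeff_mem _ k ?_ hf
  intro l hl
  rw [Lsc_word, Polynomial.coeff_mul_C, Polynomial.coeff_X_pow]
  split_ifs with h
  · rw [one_mul]
    exact word_mem ⟨hl, h.symm⟩
  · rw [zero_mul]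
    exact Submodule.zero_mem _

theorem ev_X {τ : Type*} (A : τ → Matrix (Fin n) (Fin n) K) (t : K) :
    ev A t X = algebraMap K _ t := by
  show (X : (FreeAlgebra K τ)[X]).eval₂ (FreeAlgebra.lift K A :
    FreeAlgebra K τ →+* Matrix (Fin n) (Fin n) K) (algebraMap K _ t) = _
  rw [eval₂_X]

theorem ev_C {τ : Type*} (A : τ → Matrix (Fin n) (Fin n) K) (t : K) (g : FreeAlgebra K τ) :
    ev A t (C g) = FreeAlgebra.lift K A g := by
  show (C g : (FreeAlgebra K τ)[X]).eval₂ (FreeAlgebra.lift K A :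
    FreeAlgebra K τ →+* Matrix (Fin n) (Fin n) K) (algebraMap K _ t) = _
  rw [eval₂_C]
  rfl

theorem exists_coeff {σ τ : Type*} (L : σ → (FreeAlgebra K τ)[X]) (f : FreeAlgebra K σ)
    (A : τ → Matrix (Fin n) (Fin n) K) (t : K)
    (h : FreeAlgebra.lift K (fun s => ev A t (L s)) f ≠ 0) :
    ∃ k, FreeAlgebra.lift K A ((sub L f).coeff k) ≠ 0 := by
  by_contra hcon
  push Not at hcon
  apply h
  rw [← ev_sub, ev_sum A t (sub L f) (Nat.lt_succ_self _)]
  exact Finset.sum_eq_zero fun k _ => by rw [hcon k, smul_zero]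

theorem exists_comp [Infinite K] (i : Fin 2) {W : List (Fin 2) → Prop}
    {f : FreeAlgebra K (Fin 2)} (hf : TT n f) (hW : f ∈ Sp K W) :
    ∃ k g, TT n g ∧ g ∈ Sp K (fun l => W l ∧ l.count i = k) := by
  obtain ⟨A, hA⟩ := hf.ne
  have h1 : (fun s => ev A 1 (Lsc K i s)) = A := by
    funext s
    unfold Lsc
    split_ifs
    · rw [map_mul, ev_X, ev_C]; simp
    · rw [ev_C]; simp
  obtain ⟨k, hk⟩ := exists_coeff (Lsc K i) f A 1 (by rw [h1]; exact hA)
  obtain ⟨D, -, hD⟩ := hf.top (Lsc K i) k ⟨A, hk⟩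
  exact ⟨D, _, hD, Lsc_coeff i hW D⟩

/-! ### translations -/

/-- `x ↦ x + t`, `y ↦ y` -/
noncomputable def Ltr (K : Type*) [Field K] : Fin 2 → (FreeAlgebra K (Fin 2))[X] :=
  ![C (FreeAlgebra.ι K 0) + X, C (FreeAlgebra.ι K 1)]

theorem Ltr_word (l : List (Fin 2)) : ∀ k, (sub (Ltr K) (word K l)).coeff k ∈
    Sp K (fun l' => l'.count 0 + k = l.count 0 ∧ l'.count 1 = l.count 1) := by
  induction l with
  | nil =>
    intro k
    rw [word_nil, map_one, Polynomial.coeff_one]
    split_ifs with h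
    · subst h
      exact word_mem (l := []) ⟨rfl, rfl⟩
    · exact Submodule.zero_mem _
  | cons a l ih =>
    intro k
    rw [word_cons, map_mul, sub_ι]
    have hm : ∀ k, FreeAlgebra.ι K a * (sub (Ltr K) (word K l)).coeff k ∈
        Sp K (fun l' => l'.count 0 + k = (a :: l).count 0 ∧ l'.count 1 = (a :: l).count 1) := by
      intro k
      rw [ι_word]
      refine mul_mem_Sp (W := fun l' => l' = [a]) ?_ (word_mem rfl) (ih k)
      rintro l1 l2 rfl ⟨h2, h3⟩
      simp only [List.cons_append, List.nil_append, List.count_cons]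
      omega
    fin_cases a
    · have h0 : (Ltr K (0 : Fin 2)) = C (FreeAlgebra.ι K 0) + X := rfl
      show ((Ltr K (0 : Fin 2)) * _).coeff k ∈ _
      rw [h0, add_mul, Polynomial.coeff_add, Polynomial.coeff_C_mul]
      refine Submodule.add_mem _ (hm k) ?_
      cases k with
      | zero => rw [Polynomial.coeff_X_mul_zero]; exact Submodule.zero_mem _
      | succ k =>
        rw [Polynomial.coeff_X_mul]
        refine Sp_mono ?_ (ih k)
        rintro l' ⟨h2, h3⟩
        simp only [List.count_cons]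
        constructor
        · simp only [Fin.zero_eta, BEq.rfl, if_true]; omega
        · simpa using h3
    · show ((Ltr K (1 : Fin 2)) * _).coeff k ∈ _
      have h0 : (Ltr K (1 : Fin 2)) = C (FreeAlgebra.ι K 1) := rfl
      rw [h0, Polynomial.coeff_C_mul]
      exact hm k

/-- `x ↦ x`, `y ↦ y + t g(x)` -/
noncomputable def Lsh {K : Type*} [Field K] (g : FreeAlgebra K (Fin 2)) :
    Fin 2 → (FreeAlgebra K (Fin 2))[X] :=
  ![C (FreeAlgebra.ι K 0), C (FreeAlgebra.ι K 1) + X * C g]

theorem Lsh_word {g : FreeAlgebra K (Fin 2)} (hg : g ∈ Sp K (fun l => l.count 1 = 0))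
    (l : List (Fin 2)) : ∀ k, (sub (Lsh g) (word K l)).coeff k ∈
    Sp K (fun l' => l'.count 1 + k = l.count 1) := by
  induction l with
  | nil =>
    intro k
    rw [word_nil, map_one, Polynomial.coeff_one]
    split_ifs with h
    · subst h
      exact word_mem (l := []) rfl
    · exact Submodule.zero_mem _
  | cons a l ih =>
    intro k
    rw [word_cons, map_mul, sub_ι]
    have hm : ∀ k, FreeAlgebra.ι K a * (sub (Lsh g) (word K l)).coeff k ∈
        Sp K (fun l' => l'.count 1 + k = (a :: l).count 1) := by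
      intro k
      rw [ι_word]
      refine mul_mem_Sp (W := fun l' => l' = [a]) ?_ (word_mem rfl) (ih k)
      rintro l1 l2 rfl h2
      simp only [List.cons_append, List.nil_append, List.count_cons]
      omega
    fin_cases a
    · show ((Lsh g (0 : Fin 2)) * _).coeff k ∈ _
      have h0 : (Lsh g (0 : Fin 2)) = C (FreeAlgebra.ι K 0) := rfl
      rw [h0, Polynomial.coeff_C_mul]
      exact hm k
    · have h0 : (Lsh g (1 : Fin 2)) = C (FreeAlgebra.ι K 1) + X * C g := rfl
      show ((Lsh g (1 : Fin 2)) * _).coeff k ∈ _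
      rw [h0, add_mul, Polynomial.coeff_add, Polynomial.coeff_C_mul, mul_assoc]
      refine Submodule.add_mem _ (hm k) ?_
      cases k with
      | zero => rw [Polynomial.coeff_X_mul_zero]; exact Submodule.zero_mem _
      | succ k =>
        rw [Polynomial.coeff_X_mul, Polynomial.coeff_C_mul]
        refine mul_mem_Sp ?_ hg (ih k)
        intro l1 l2 h1 h2
        rw [List.count_append, h1]
        simp only [List.count_cons]
        simp only [Fin.mk_one, BEq.rfl, if_true]; omega

theorem aeval_mem (g : K[X]) : Polynomial.aeval (FreeAlgebra.ι K (0 : Fin 2)) g ∈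
    Sp K (fun l : List (Fin 2) => l.count 1 = 0) := by
  rw [Polynomial.aeval_eq_sum_range]
  refine Submodule.sum_mem _ fun i hi => Submodule.smul_mem _ _ ?_
  clear hi
  induction i with
  | zero => rw [pow_zero]; exact word_mem (l := []) rfl
  | succ i ih =>
    rw [pow_succ]
    refine mul_mem_Sp (W' := fun l => l = [0]) ?_ ih ?_
    · rintro l1 l2 h1 rfl
      rw [List.count_append, h1]
      rfl
    · rw [ι_word]; exact word_mem rfl

/-- The normal form of `n`-central polynomials in two variables. -/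
theorem normal [Infinite K] (f : FreeAlgebra K (Fin 2)) (hf : TT n f) :
    ∃ (d e : ℕ) (q : FreeAlgebra K (Fin 2)), TT n q ∧
      q ∈ Sp K (fun l => l.count 0 = d ∧ l.count 1 = e) ∧ e ≤ d ∧
      ∀ (A : Fin 2 → Matrix (Fin n) (Fin n) K) (t : K) (g : K[X]),
        FreeAlgebra.lift K ![A 0 + algebraMap K _ t, A 1 + Polynomial.aeval (A 0) g] q =
          FreeAlgebra.lift K A q := by
  classical
  -- minimal degree in `y`
  have hE : ∃ e, ∃ q : FreeAlgebra K (Fin 2), TT n q ∧ q ∈ Sp K (fun l => l.count 1 = e) := by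
    obtain ⟨k, g, hg, hg'⟩ := exists_comp 1 hf (mem_Sp_all f)
    exact ⟨k, g, hg, Sp_mono (fun l h => h.2) hg'⟩
  set e := Nat.find hE with he
  have hmin1 : ∀ e' < e, ∀ q : FreeAlgebra K (Fin 2), TT n q →
      q ∉ Sp K (fun l => l.count 1 = e') := fun e' h q h1 h2 => Nat.find_min hE h ⟨q, h1, h2⟩
  have hD : ∃ d, ∃ q : FreeAlgebra K (Fin 2), TT n q ∧
      q ∈ Sp K (fun l => l.count 0 = d ∧ l.count 1 = e) := by
    obtain ⟨q, hq, hq'⟩ := Nat.find_spec hE
    obtain ⟨k, g, hg, hg'⟩ := exists_comp 0 hq hq'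
    exact ⟨k, g, hg, Sp_mono (fun l h => ⟨h.2, h.1⟩) hg'⟩
  set d := Nat.find hD with hd
  have hmin2 : ∀ d' < d, ∀ q : FreeAlgebra K (Fin 2), TT n q →
      q ∉ Sp K (fun l => l.count 0 = d' ∧ l.count 1 = e) :=
    fun d' h q h1 h2 => Nat.find_min hD h ⟨q, h1, h2⟩
  obtain ⟨q, hq, hqS⟩ := Nat.find_spec hD
  -- vanishing of the coefficients along the shears
  have hshv : ∀ g : K[X], ∀ k, 1 ≤ k → ∀ A : Fin 2 → Matrix (Fin n) (Fin n) K,
      FreeAlgebra.lift K A ((sub (Lsh (Polynomial.aeval (FreeAlgebra.ι K (0 : Fin 2)) g))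
        q).coeff k) = 0 := by
    intro g k hk A
    by_contra hne
    obtain ⟨D, hkD, hTD⟩ := hq.top (Lsh (Polynomial.aeval (FreeAlgebra.ι K (0 : Fin 2)) g)) k
      ⟨A, hne⟩
    have hmem : (sub (Lsh (Polynomial.aeval (FreeAlgebra.ι K (0 : Fin 2)) g)) q).coeff D ∈
        Sp K (fun l => l.count 1 + D = e) := by
      refine coeff_mem _ D ?_ hqS
      rintro l ⟨-, h2⟩
      refine Sp_mono ?_ (Lsh_word (aeval_mem g) l D)
      intro l' h
      rw [h, h2]
    by_cases hDe : D ≤ e
    · refine hmin1 (e - D) (by omega) _ hTD (Sp_mono ?_ hmem)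
      intro l h
      omega
    · obtain ⟨A', hA'⟩ := hTD.ne
      apply hA'
      have : (sub (Lsh (Polynomial.aeval (FreeAlgebra.ι K (0 : Fin 2)) g)) q).coeff D ∈
          Sp K (fun _ : List (Fin 2) => False) := Sp_mono (fun l h => by omega) hmem
      have h0 : Sp K (fun _ : List (Fin 2) => False) = ⊥ := by simp [Sp]
      rw [h0, Submodule.mem_bot] at this
      rw [this, map_zero]
  have htrv : ∀ k, 1 ≤ k → ∀ A : Fin 2 → Matrix (Fin n) (Fin n) K,
      FreeAlgebra.lift K A ((sub (Ltr K) q).coeff k) = 0 := by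
    intro k hk A
    by_contra hne
    obtain ⟨D, hkD, hTD⟩ := hq.top (Ltr K) k ⟨A, hne⟩
    have hmem : (sub (Ltr K) q).coeff D ∈
        Sp K (fun l => l.count 0 + D = d ∧ l.count 1 = e) := by
      refine coeff_mem _ D ?_ hqS
      rintro l ⟨h1, h2⟩
      refine Sp_mono ?_ (Ltr_word l D)
      rintro l' ⟨h3, h4⟩
      exact ⟨by rw [h3, h1], by rw [h4, h2]⟩
    by_cases hDd : D ≤ d
    · refine hmin2 (d - D) (by omega) _ hTD (Sp_mono ?_ hmem)
      rintro l ⟨h1, h2⟩
      exact ⟨by omega, h2⟩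
    · obtain ⟨A', hA'⟩ := hTD.ne
      apply hA'
      have : (sub (Ltr K) q).coeff D ∈
          Sp K (fun _ : List (Fin 2) => False) := Sp_mono (fun l h => by omega) hmem
      have h0 : Sp K (fun _ : List (Fin 2) => False) = ⊥ := by simp [Sp]
      rw [h0, Submodule.mem_bot] at this
      rw [this, map_zero]
  refine ⟨d, e, q, hq, hqS, ?_, ?_⟩
  · -- swap the variables
    by_contra hlt
    push Not at hlt
    have hsw : ∀ l : List (Fin 2), FreeAlgebra.lift K
        (fun s : Fin 2 => FreeAlgebra.ι K (Equiv.swap (0 : Fin 2) 1 s)) (word K l) =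
        word K (l.map (Equiv.swap (0 : Fin 2) 1)) := by
      intro l
      simp [word, map_list_prod, List.map_map, Function.comp_def]
    have hT : TT n (FreeAlgebra.lift K
        (fun s : Fin 2 => FreeAlgebra.ι K (Equiv.swap (0 : Fin 2) 1 s)) q) := by
      refine hq.subst _ ?_
      obtain ⟨A, hA⟩ := hq.ne
      refine ⟨fun s => A (Equiv.swap (0 : Fin 2) 1 s), ?_⟩
      have : (FreeAlgebra.lift K (fun s => A (Equiv.swap (0 : Fin 2) 1 s))).comp
          (FreeAlgebra.lift K (fun s : Fin 2 => FreeAlgebra.ι K (Equiv.swap (0 : Fin 2) 1 s))) =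
          FreeAlgebra.lift K A := by
        apply FreeAlgebra.hom_ext
        funext s
        simp
      have h2 := DFunLike.congr_fun this q
      rw [AlgHom.comp_apply] at h2
      rw [h2]
      exact hA
    refine hmin1 d hlt _ hT ?_
    unfold Sp at hqS
    have : ∀ x ∈ Submodule.span K (word K '' {l : List (Fin 2) | l.count 0 = d ∧ l.count 1 = e}),
        FreeAlgebra.lift K (fun s : Fin 2 => FreeAlgebra.ι K (Equiv.swap (0 : Fin 2) 1 s)) x ∈
          Sp K (fun l : List (Fin 2) => l.count 1 = d) := by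
      intro x hx
      induction hx using Submodule.span_induction with
      | mem x hx =>
        obtain ⟨l, ⟨h1, -⟩, rfl⟩ := hx
        rw [hsw]
        refine word_mem ?_
        have h3 := List.count_map_of_injective l (Equiv.swap (0 : Fin 2) 1)
          (Equiv.injective _) 0
        rw [Equiv.swap_apply_left] at h3
        rw [h3, h1]
      | zero => simp
      | add x y _ _ hx hy => rw [map_add]; exact Submodule.add_mem _ hx hy
      | smul a x _ hx => rw [map_smul]; exact Submodule.smul_mem _ _ hx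
    exact this q hqS
  · intro A t g
    have h1 := invariant (Lsh (Polynomial.aeval (FreeAlgebra.ι K (0 : Fin 2)) g)) q (hshv g) A 1
    have h2 := invariant (Ltr K) q htrv ![A 0, A 1 + Polynomial.aeval (A 0) g] t
    have e1 : (fun s => ev A 1 (Lsh (Polynomial.aeval (FreeAlgebra.ι K (0 : Fin 2)) g) s)) =
        ![A 0, A 1 + Polynomial.aeval (A 0) g] := by
      funext s
      fin_cases s
      · show ev A 1 (C (FreeAlgebra.ι K 0)) = A 0
        rw [ev_C]; simp
      · show ev A 1 (C (FreeAlgebra.ι K 1) + X * C _) = A 1 + Polynomial.aeval (A 0) g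
        rw [map_add, map_mul, ev_X, ev_C, ev_C, map_one, one_mul, ← Polynomial.aeval_algHom_apply]
        simp
    have e2 : (fun s => ev A 0 (Lsh (Polynomial.aeval (FreeAlgebra.ι K (0 : Fin 2)) g) s)) = A := by
      funext s
      fin_cases s
      · show ev A 0 (C (FreeAlgebra.ι K 0)) = A 0
        rw [ev_C]; simp
      · show ev A 0 (C (FreeAlgebra.ι K 1) + X * C _) = A 1
        rw [map_add, map_mul, ev_X, ev_C, map_zero, zero_mul, add_zero]
        simp
    have e3 : (fun s => ev ![A 0, A 1 + Polynomial.aeval (A 0) g] t (Ltr K s)) =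
        ![A 0 + algebraMap K _ t, A 1 + Polynomial.aeval (A 0) g] := by
      funext s
      fin_cases s
      · show ev ![A 0, A 1 + Polynomial.aeval (A 0) g] t (C (FreeAlgebra.ι K 0) + X) = _
        rw [map_add, ev_C, ev_X]; simp
      · show ev ![A 0, A 1 + Polynomial.aeval (A 0) g] t (C (FreeAlgebra.ι K 1)) = _
        rw [ev_C]; simp
    have e4 : (fun s => ev ![A 0, A 1 + Polynomial.aeval (A 0) g] 0 (Ltr K s)) =
        ![A 0, A 1 + Polynomial.aeval (A 0) g] := by
      funext s
      fin_cases s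
      · show ev ![A 0, A 1 + Polynomial.aeval (A 0) g] 0 (C (FreeAlgebra.ι K 0) + X) = _
        rw [map_add, ev_C, ev_X]; simp
      · show ev ![A 0, A 1 + Polynomial.aeval (A 0) g] 0 (C (FreeAlgebra.ι K 1)) = _
        rw [ev_C]; simp
    rw [e1, e2] at h1
    rw [e3, e4] at h2
    rw [h2, h1]

end Q113.HW
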