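import Mathlib
import Pool.Agent.TH82.NC.Dom
import Pool.Agent.H552R3.PC.Quant3

/-!
Leading coefficients of `n`-central polynomials along polynomial families of substitutions.
-/

set_option autoImplicit false

namespace Q113.HW

open Matrix Polynomial Pool.Agent.H552R3.PC Pool.Agent.TH82.NC

variable {K : Type*} [Field K] {σ τ : Type*} {n : ℕ}

/-- the data of an `n`-central polynomial -/
structure TT (n : ℕ) (f : FreeAlgebra K σ) : Prop where
  scal : ∀ X : σ → Matrix (Fin n) (Fin n) K, ∃ c : K,
    FreeAlgebra.lift K X (f ^ n) = Matrix.scalar (Fin n) c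
  tr : ∀ X : σ → Matrix (Fin n) (Fin n) K, (FreeAlgebra.lift K X f).trace = 0
  ne : ∃ X : σ → Matrix (Fin n) (Fin n) K, FreeAlgebra.lift K X f ≠ 0

/-- evaluation at matrices and a scalar -/
noncomputable def ev (A : τ → Matrix (Fin n) (Fin n) K) (t : K) :
    (FreeAlgebra K τ)[X] →ₐ[K] Matrix (Fin n) (Fin n) K :=
  eval₂AlgHom (FreeAlgebra.lift K A) (algebraMap K _ t) (fun _ => (Algebra.commutes t _).symm)

theorem ev_sum (A : τ → Matrix (Fin n) (Fin n) K) (t : K) (P : (FreeAlgebra K τ)[X]) {N : ℕ}
    (hN : P.natDegree < N) :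
    ev A t P = ∑ k ∈ Finset.range N, t ^ k • FreeAlgebra.lift K A (P.coeff k) := by
  show P.eval₂ (FreeAlgebra.lift K A : FreeAlgebra K τ →+* Matrix (Fin n) (Fin n) K)
    (algebraMap K _ t) = _
  rw [eval₂_eq_sum_range' _ hN]
  refine Finset.sum_congr rfl fun k _ => ?_
  rw [← map_pow, Algebra.smul_def, Algebra.commutes]
  rfl

/-- the substitution homomorphism -/
noncomputable def sub (L : σ → (FreeAlgebra K τ)[X]) : FreeAlgebra K σ →ₐ[K] (FreeAlgebra K τ)[X] :=
  FreeAlgebra.lift K L

theorem ev_sub (L : σ → (FreeAlgebra K τ)[X]) (A : τ → Matrix (Fin n) (Fin n) K) (t : K)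
    (f : FreeAlgebra K σ) :
    ev A t (sub L f) = FreeAlgebra.lift K (fun s => ev A t (L s)) f := by
  have : (ev A t).comp (sub L) = FreeAlgebra.lift K (fun s => ev A t (L s)) := by
    apply FreeAlgebra.hom_ext
    funext s
    simp [sub]
  exact DFunLike.congr_fun this f

/-- Linear conditions on the values pass to the coefficients. -/
theorem functional [Infinite K] (L : σ → (FreeAlgebra K τ)[X]) (f : FreeAlgebra K σ)
    (ℓ : Matrix (Fin n) (Fin n) K →ₗ[K] K)
    (h : ∀ X : σ → Matrix (Fin n) (Fin n) K, ℓ (FreeAlgebra.lift K X f) = 0)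
    (A : τ → Matrix (Fin n) (Fin n) K) (k : ℕ) :
    ℓ (FreeAlgebra.lift K A ((sub L f).coeff k)) = 0 := by
  set P := sub L f with hP
  set N := P.natDegree + 1 with hN
  set p : K[X] := ∑ k ∈ Finset.range N, Polynomial.monomial k
    (ℓ (FreeAlgebra.lift K A (P.coeff k))) with hp
  have hp0 : p = 0 := by
    apply Polynomial.funext
    intro t
    rw [Polynomial.eval_zero, hp, Polynomial.eval_finsetSum]
    have h1 := h (fun s => ev A t (L s))
    rw [← ev_sub, ← hP, ev_sum A t P (Nat.lt_succ_self _), map_sum] at h1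
    rw [← h1]
    refine Finset.sum_congr rfl fun k _ => ?_
    rw [Polynomial.eval_monomial, map_smul, smul_eq_mul, mul_comm]
  by_cases hk : k < N
  · have h2 := congrArg (fun q => Polynomial.coeff q k) hp0
    simp only [hp, Polynomial.finsetSum_coeff, Polynomial.coeff_monomial, Polynomial.coeff_zero,
      Finset.sum_ite_eq', Finset.mem_range, hk, if_true] at h2
    exact h2
  · rw [Polynomial.coeff_eq_zero_of_natDegree_lt (by omega), map_zero, map_zero]

theorem scalar_iff (M : Matrix (Fin n) (Fin n) K) :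
    (∃ c : K, M = Matrix.scalar (Fin n) c) ↔
      (∀ i j : Fin n, i ≠ j → M i j = 0) ∧ ∀ i j : Fin n, M i i = M j j := by
  constructor
  · rintro ⟨c, rfl⟩
    refine ⟨fun i j hij => by simp [Matrix.scalar_apply, Matrix.diagonal, hij],
      fun i j => by simp [Matrix.scalar_apply]⟩
  · rintro ⟨h1, h2⟩
    rcases Nat.eq_zero_or_pos n with hn | hn
    · subst hn
      exact ⟨0, Subsingleton.elim _ _⟩
    · refine ⟨M ⟨0, hn⟩ ⟨0, hn⟩, ?_⟩
      ext i j
      by_cases hij : i = j
      · subst hij
        simp [Matrix.scalar_apply, h2 i ⟨0, hn⟩]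
      · simp [Matrix.scalar_apply, Matrix.diagonal, hij, h1 i j hij]

/-- Scalar values pass to the coefficients. -/
theorem scalar_coeff [Infinite K] (L : σ → (FreeAlgebra K τ)[X]) (f : FreeAlgebra K σ)
    (h : ∀ X : σ → Matrix (Fin n) (Fin n) K, ∃ c : K,
      FreeAlgebra.lift K X f = Matrix.scalar (Fin n) c)
    (A : τ → Matrix (Fin n) (Fin n) K) (k : ℕ) :
    ∃ c : K, FreeAlgebra.lift K A ((sub L f).coeff k) = Matrix.scalar (Fin n) c := by
  rw [scalar_iff]
  constructor
  · intro i j hij
    exact functional L f (Matrix.entryLinearMap K K i j)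
      (fun X => ((scalar_iff _).1 (h X)).1 i j hij) A k
  · intro i j
    have := functional L f (Matrix.entryLinearMap K K i i - Matrix.entryLinearMap K K j j)
      (fun X => by
        simp only [LinearMap.sub_apply, Matrix.entryLinearMap_apply]
        rw [((scalar_iff _).1 (h X)).2 i j, sub_self]) A k
    simp only [LinearMap.sub_apply, Matrix.entryLinearMap_apply] at this
    exact sub_eq_zero.1 this

/-- **Leading coefficients of `n`-central polynomials are `n`-central.** -/
theorem TT.top [Infinite K] {f : FreeAlgebra K σ} (hf : TT n f) (L : σ → (FreeAlgebra K τ)[X])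
    (k0 : ℕ) (hk0 : ∃ A : τ → Matrix (Fin n) (Fin n) K,
      FreeAlgebra.lift K A ((sub L f).coeff k0) ≠ 0) :
    ∃ D, k0 ≤ D ∧ TT n ((sub L f).coeff D) := by
  classical
  set P := sub L f with hP
  let S : ℕ → Prop := fun k => ∃ A : τ → Matrix (Fin n) (Fin n) K,
      FreeAlgebra.lift K A (P.coeff k) ≠ 0
  have hbd : ∀ k, S k → k ≤ P.natDegree := by
    rintro k ⟨A, hA⟩
    by_contra hlt
    apply hA
    rw [Polynomial.coeff_eq_zero_of_natDegree_lt (by omega), map_zero]
  set D := Nat.findGreatest S P.natDegree with hD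
  have hSD : S D := Nat.findGreatest_spec (hbd k0 hk0) hk0
  have hgt : ∀ k, D < k → ∀ A : τ → Matrix (Fin n) (Fin n) K,
      FreeAlgebra.lift K A (P.coeff k) = 0 := by
    intro k hk A
    by_contra hne
    have h1 : S k := ⟨A, hne⟩
    exact absurd (Nat.le_findGreatest (hbd k h1) h1) (by omega)
  refine ⟨D, Nat.le_findGreatest (hbd k0 hk0) hk0, ?_, ?_, hSD⟩
  · intro A
    have h1 := scalar_coeff L (f ^ n) hf.scal A (n * D)
    have h2 : FreeAlgebra.lift K A ((sub L (f ^ n)).coeff (n * D)) =
        FreeAlgebra.lift K A (P.coeff D ^ n) := by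
      rw [map_pow, ← hP]
      set Q := Polynomial.map (FreeAlgebra.lift K A : FreeAlgebra K τ →+*
        Matrix (Fin n) (Fin n) K) P with hQ
      have hQd : Q.natDegree ≤ D := by
        rw [Polynomial.natDegree_le_iff_coeff_eq_zero]
        intro m hm
        rw [hQ, Polynomial.coeff_map]
        exact hgt m hm A
      have h3 : FreeAlgebra.lift K A ((P ^ n).coeff (n * D)) = (Q ^ n).coeff (n * D) := by
        rw [hQ, ← Polynomial.map_pow, Polynomial.coeff_map]
        rfl
      rw [h3, Polynomial.coeff_pow_of_natDegree_le hQd, map_pow, hQ, Polynomial.coeff_map]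
      rfl
    rwa [h2] at h1
  · intro A
    exact functional L f (Matrix.traceLinearMap (Fin n) K K) hf.tr A D

/-- If the higher coefficients vanish, the substitution does not change the values. -/
theorem invariant (L : σ → (FreeAlgebra K τ)[X]) (f : FreeAlgebra K σ)
    (h : ∀ k, 1 ≤ k → ∀ A : τ → Matrix (Fin n) (Fin n) K,
      FreeAlgebra.lift K A ((sub L f).coeff k) = 0) (A : τ → Matrix (Fin n) (Fin n) K) (t : K) :
    FreeAlgebra.lift K (fun s => ev A t (L s)) f =
      FreeAlgebra.lift K (fun s => ev A 0 (L s)) f := by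
  have key : ∀ t, FreeAlgebra.lift K (fun s => ev A t (L s)) f =
      FreeAlgebra.lift K A ((sub L f).coeff 0) := by
    intro t
    rw [← ev_sub, ev_sum A t (sub L f) (Nat.lt_succ_self _), Finset.sum_range_succ',
      Finset.sum_eq_zero]
    · simp
    · intro k _
      rw [h (k + 1) (by omega) A, smul_zero]
  rw [key, key]

/-- Substitution. -/
theorem TT.subst {f : FreeAlgebra K σ} (hf : TT n f) (w : σ → FreeAlgebra K τ)
    (hne : ∃ Y : τ → Matrix (Fin n) (Fin n) K,
      FreeAlgebra.lift K Y (FreeAlgebra.lift K w f) ≠ 0) :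
    TT n (FreeAlgebra.lift K w f) := by
  have key : ∀ (Y : τ → Matrix (Fin n) (Fin n) K) (g : FreeAlgebra K σ),
      FreeAlgebra.lift K Y (FreeAlgebra.lift K w g) =
        FreeAlgebra.lift K (fun s => FreeAlgebra.lift K Y (w s)) g := by
    intro Y g
    have : (FreeAlgebra.lift K Y).comp (FreeAlgebra.lift K w) =
        FreeAlgebra.lift K (fun s => FreeAlgebra.lift K Y (w s)) := by
      apply FreeAlgebra.hom_ext
      funext s
      simp
    exact DFunLike.congr_fun this g
  refine ⟨fun Y => ?_, fun Y => ?_, hne⟩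
  · rw [← map_pow, key]
    exact hf.scal _
  · rw [key]
    exact hf.tr _

end Q113.HW
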