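import Pool.Agent.Q113.HW.Main

/-!
Reduction to two variables; `TT` and `n`-central polynomials.
-/

set_option autoImplicit false

namespace Q113.HW

open Matrix Polynomial Pool.Agent.H552R3.PC Pool.Agent.TH82.NC

variable {K : Type*} [Field K] {n : ℕ}

/-- the lower shift -/
def Nm (K : Type*) [Field K] (n : ℕ) : Matrix (Fin n) (Fin n) K :=
  Matrix.of fun a b => if a.1 = b.1 + 1 then 1 else 0

theorem Nm_mul_single (i : ℕ) (h : i + 1 < n) (j : Fin n) :
    Nm K n * Matrix.single ⟨i, by omega⟩ j 1 = Matrix.single ⟨i + 1, h⟩ j 1 := by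
  ext a b
  rw [Matrix.mul_apply, Finset.sum_eq_single ⟨i, by omega⟩]
  · by_cases hb : j = b
    · subst hb
      by_cases ha : a.1 = i + 1
      · have : (⟨i + 1, h⟩ : Fin n) = a := Fin.ext ha.symm
        simp [Nm, Matrix.single, ha, this]
      · have : ¬ (⟨i + 1, h⟩ : Fin n) = a := fun h' => ha (by rw [← h'])
        simp [Nm, Matrix.single, ha, this]
    · simp [Matrix.single, hb]
  · intro c _ hc
    have : ¬ (⟨i, by omega⟩ : Fin n) = c := fun h' => hc h'.symm
    simp [Matrix.single, this]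
  · intro h'
    exact absurd (Finset.mem_univ _) h'

theorem Nm_pow_mul (hn : 0 < n) (i : ℕ) (hi : i < n) (j : Fin n) :
    Nm K n ^ i * Matrix.single ⟨0, hn⟩ j 1 = Matrix.single ⟨i, hi⟩ j 1 := by
  induction i with
  | zero => rw [pow_zero, one_mul]
  | succ i ih =>
    rw [pow_succ', mul_assoc, ih (by omega), Nm_mul_single i hi j]

theorem Nm_NmT (hn : 0 < n) :
    1 - Nm K n * (Nm K n)ᵀ = Matrix.single ⟨0, hn⟩ ⟨0, hn⟩ 1 := by
  rw [sub_eq_iff_eq_add]
  ext a b
  rw [Matrix.add_apply, Matrix.mul_apply]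
  by_cases ha : a.1 = 0
  · rw [Finset.sum_eq_zero]
    · have h0 : (⟨0, hn⟩ : Fin n) = a := Fin.ext ha.symm
      rw [h0, add_zero]
      by_cases hb : a = b
      · subst hb; simp
      · simp [Matrix.single, hb]
    · intro c _
      have : ¬ a.1 = c.1 + 1 := by omega
      simp [Nm, this]
  · obtain ⟨m, hm⟩ : ∃ m, a.1 = m + 1 := ⟨a.1 - 1, by omega⟩
    have hmn : m < n := by have := a.2; omega
    rw [Finset.sum_eq_single ⟨m, hmn⟩]
    · have h0 : ¬ (⟨0, hn⟩ : Fin n) = a := fun h' => ha (by rw [← h'])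
      by_cases hb : a = b
      · subst hb
        simp [Nm, Matrix.single, hm, h0]
      · have hb' : ¬ b.1 = m + 1 := fun h' => hb (Fin.ext (by omega))
        simp [Nm, Matrix.single, hb, hb', h0]
    · intro c _ hc
      have : ¬ a.1 = c.1 + 1 := by
        intro h'
        apply hc
        apply Fin.ext
        show c.1 = m
        omega
      simp [Nm, this]
    · intro h'
      exact absurd (Finset.mem_univ _) h'

theorem single_eq (hn : 0 < n) (i j : Fin n) :
    Nm K n ^ i.1 * (1 - Nm K n * (Nm K n)ᵀ) * (Nm K n)ᵀ ^ j.1 = Matrix.single i j 1 := by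
  rw [Nm_NmT hn, Nm_pow_mul hn i.1 i.2]
  have h1 := congrArg Matrix.transpose (Nm_pow_mul (K := K) hn j.1 j.2 i)
  rw [Matrix.transpose_mul, Matrix.transpose_pow] at h1
  have h2 : ∀ a b : Fin n, (Matrix.single a b (1 : K))ᵀ = Matrix.single b a 1 := by
    intro a b
    ext c d
    simp [Matrix.single, Matrix.transpose_apply, and_comm]
  rw [h2, h2] at h1
  exact h1

/-- Every `n`-central polynomial yields one in two variables. -/
theorem two_variables {σ : Type*} (hn : 0 < n) (f : FreeAlgebra K σ) (hf : TT n f) :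
    ∃ q : FreeAlgebra K (Fin 2), TT n q := by
  obtain ⟨Z, hZ⟩ := hf.ne
  let w : σ → FreeAlgebra K (Fin 2) := fun s => ∑ i : Fin n, ∑ j : Fin n,
    Z s i j • (FreeAlgebra.ι K 0 ^ i.1 * (1 - FreeAlgebra.ι K 0 * FreeAlgebra.ι K 1) *
      FreeAlgebra.ι K 1 ^ j.1)
  have hw : ∀ s, FreeAlgebra.lift K ![Nm K n, (Nm K n)ᵀ] (w s) = Z s := by
    intro s
    have h0 : FreeAlgebra.lift K ![Nm K n, (Nm K n)ᵀ] (FreeAlgebra.ι K 0) = Nm K n := by simp
    have h1 : FreeAlgebra.lift K ![Nm K n, (Nm K n)ᵀ] (FreeAlgebra.ι K 1) = (Nm K n)ᵀ := by simp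
    simp only [w, map_sum, map_smul, map_mul, map_pow, map_sub, map_one, h0, h1]
    simp only [single_eq hn]
    conv_rhs => rw [Matrix.matrix_eq_sum_single (Z s)]
    simp [Matrix.smul_single]
  refine ⟨FreeAlgebra.lift K w f, hf.subst w ⟨![Nm K n, (Nm K n)ᵀ], ?_⟩⟩
  have : (FreeAlgebra.lift K ![Nm K n, (Nm K n)ᵀ]).comp (FreeAlgebra.lift K w) =
      FreeAlgebra.lift K Z := by
    apply FreeAlgebra.hom_ext
    funext s
    simp [hw]
  have h2 := DFunLike.congr_fun this f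
  rw [AlgHom.comp_apply] at h2
  rw [h2]
  exact hZ

section Nu

variable {σ : Type*}

/-- all values are scalar matrices -/
def SV (n : ℕ) (f : FreeAlgebra K σ) : Prop :=
  ∀ X : σ → Matrix (Fin n) (Fin n) K, ∃ c : K, FreeAlgebra.lift K X f = Matrix.scalar (Fin n) c

/-- central -/
def IC (n : ℕ) (f : FreeAlgebra K σ) : Prop :=
  SV n f ∧ ∃ X : σ → Matrix (Fin n) (Fin n) K, FreeAlgebra.lift K X f ≠ 0

theorem TT_of_nu [Infinite K] (hn : n.Prime) (hnK : (n : K) ≠ 0) (f : FreeAlgebra K σ)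
    (hc : IC n (f ^ n)) (hmin : ∀ μ : ℕ, 0 < μ → IC n (f ^ μ) → n ≤ μ) : TT n f := by
  obtain ⟨h2, X0, hX0⟩ := hc
  have : NeZero n := ⟨hn.ne_zero⟩
  have hfX0 : FreeAlgebra.lift K X0 f ≠ 0 := by
    intro hz
    apply hX0
    rw [map_pow, hz, zero_pow hn.ne_zero]
  have hpow : ∀ X : σ → Matrix (Fin n) (Fin n) K, ∀ Z : Matrix (Fin n) (Fin n) K,
      FreeAlgebra.lift K X (f ^ n) * Z = Z * FreeAlgebra.lift K X (f ^ n) := by
    intro X Z
    obtain ⟨c, hc⟩ := h2 X
    rw [hc]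
    exact (Matrix.scalar_commute c (fun _ => Commute.all _ _) Z).eq
  have hns : ∃ X : σ → Matrix (Fin n) (Fin n) K, ∃ Z : Matrix (Fin n) (Fin n) K,
      FreeAlgebra.lift K X f * Z ≠ Z * FreeAlgebra.lift K X f := by
    by_contra hcon
    push Not at hcon
    have h4 : IC n (f ^ 1) := by
      rw [pow_one]
      exact ⟨fun X => scalar_of_comm _ (fun Y => hcon X Y), X0, hfX0⟩
    have h5 := hmin 1 one_pos h4
    have := hn.two_le
    omega
  refine ⟨h2, fun X => ?_, X0, hfX0⟩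
  obtain ⟨c, hc⟩ := charpoly_of_ncentral hn hnK f hpow hns X
  have := hn.two_le
  rw [Matrix.trace_eq_neg_charpoly_coeff, hc, Fintype.card_fin, Polynomial.coeff_sub,
    Polynomial.coeff_X_pow, if_neg (by omega), Polynomial.coeff_C, if_neg (by omega), sub_zero,
    neg_zero]

theorem nu_of_TT [Infinite K] (hn : n.Prime) (hnK : (n : K) ≠ 0) (f : FreeAlgebra K σ)
    (hf : TT n f) : IC n (f ^ n) ∧ ∀ μ : ℕ, 0 < μ → IC n (f ^ μ) → n ≤ μ := by
  have hne : ∃ X : σ → Matrix (Fin n) (Fin n) K, FreeAlgebra.lift K X (f ^ n) ≠ 0 := by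
    by_contra hcon
    push Not at hcon
    obtain ⟨X, hX⟩ := hf.ne
    exact hX (vanish_of_pow n f n hcon X)
  refine ⟨⟨hf.scal, hne⟩, ?_⟩
  rintro μ hμ ⟨hsc, -⟩
  by_contra hlt
  push Not at hlt
  obtain ⟨X, hX⟩ := hne
  have : Nonempty (Fin n) := ⟨⟨0, hn.pos⟩⟩
  set M := FreeAlgebra.lift K X f with hM
  obtain ⟨c, hc⟩ := hf.scal X
  obtain ⟨c', hc'⟩ := hsc X
  rw [map_pow, ← hM] at hc hc' hX
  have hc0 : c ≠ 0 := by
    rintro rfl
    apply hX
    rw [hc, map_zero]
  have hcop : Nat.Coprime μ n := by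
    rw [Nat.coprime_comm]
    exact (Nat.Prime.coprime_iff_not_dvd hn).2 (fun h => absurd (Nat.le_of_dvd hμ h) (by omega))
  -- `M` commutes with everything
  have hdet : IsUnit M := by
    have h1 : IsUnit (M ^ n) := by
      rw [hc]
      exact (Matrix.scalar (Fin n)).isUnit_map (IsUnit.mk0 c hc0)
    exact (isUnit_pow_iff hn.ne_zero).1 h1
  obtain ⟨u, hu⟩ := hdet
  have hcen : ∀ Z : Matrix (Fin n) (Fin n) K, M * Z = Z * M := by
    intro Z
    have e1 : Commute (u ^ n : (Matrix (Fin n) (Fin n) K)ˣ).1 Z := by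
      rw [Units.val_pow_eq_pow_val, hu, hc]
      exact Matrix.scalar_commute c (fun _ => Commute.all _ _) Z
    have e2 : Commute (u ^ μ : (Matrix (Fin n) (Fin n) K)ˣ).1 Z := by
      rw [Units.val_pow_eq_pow_val, hu, hc']
      exact Matrix.scalar_commute c' (fun _ => Commute.all _ _) Z
    have e3 : ∀ v : (Matrix (Fin n) (Fin n) K)ˣ, Commute v.1 Z → ∀ a : ℤ, Commute (v ^ a).1 Z := by
      intro v hv a
      cases a with
      | ofNat a =>
        rw [Int.ofNat_eq_natCast, zpow_natCast, Units.val_pow_eq_pow_val]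
        exact hv.pow_left a
      | negSucc a =>
        rw [zpow_negSucc]
        apply Commute.units_inv_left
        rw [Units.val_pow_eq_pow_val]
        exact hv.pow_left _
    have hbez : (1 : ℤ) = μ * Nat.gcdA μ n + n * Nat.gcdB μ n := by
      have := Nat.gcd_eq_gcd_ab μ n
      rw [hcop.gcd_eq_one] at this
      exact_mod_cast this
    have e4 : u = (u ^ μ) ^ (Nat.gcdA μ n) * (u ^ n) ^ (Nat.gcdB μ n) := by
      rw [← zpow_natCast, ← zpow_natCast, ← _root_.zpow_mul, ← _root_.zpow_mul, ← _root_.zpow_add, ← hbez,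
        _root_.zpow_one]
    have e5 : Commute u.1 Z := by
      rw [e4, Units.val_mul]
      exact (e3 _ e2 _).mul_left (e3 _ e1 _)
    rw [← hu]
    exact e5.eq
  obtain ⟨s, hs⟩ := scalar_of_comm M hcen
  have htr := hf.tr X
  rw [← hM, hs] at htr
  have h1 : (n : K) * s = 0 := by
    simpa [Matrix.scalar_apply, Matrix.trace_diagonal] using htr
  have h2 : s = 0 := (mul_eq_zero.1 h1).resolve_left hnK
  apply hX
  rw [hs, h2, map_zero, zero_pow hn.ne_zero]

end Nu

end Q113.HW
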