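import Pool.Agent.Q113.HW.Top

/-!
Words, degrees and the effect of substitutions.
-/

set_option autoImplicit false

namespace Q113.HW

open Matrix Polynomial Pool.Agent.H552R3.PC Pool.Agent.TH82.NC

variable {K : Type*} [Field K] {n : ℕ}

/-- the monomial of a word -/
noncomputable def word (K : Type*) [Field K] {σ : Type*} (l : List σ) : FreeAlgebra K σ :=
  (l.map (FreeAlgebra.ι K)).prod

/-- combinations of words in `W` -/
noncomputable def Sp (K : Type*) [Field K] {σ : Type*} (W : List σ → Prop) :
    Submodule K (FreeAlgebra K σ) :=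
  Submodule.span K (word K '' {l | W l})

section
variable {σ : Type*}

theorem word_nil : word K ([] : List σ) = 1 := rfl

theorem word_cons (a : σ) (l : List σ) : word K (a :: l) = FreeAlgebra.ι K a * word K l := by
  simp [word]

theorem word_append (l l' : List σ) : word K (l ++ l') = word K l * word K l' := by
  simp [word]

theorem word_mem {W : List σ → Prop} {l : List σ} (h : W l) : word K l ∈ Sp K W :=
  Submodule.subset_span ⟨l, h, rfl⟩

theorem Sp_mono {W W' : List σ → Prop} (h : ∀ l, W l → W' l) : Sp K W ≤ Sp K W' :=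
  Submodule.span_mono (Set.image_mono h)

theorem mul_mem_Sp {W W' W'' : List σ → Prop} (h : ∀ l l', W l → W' l' → W'' (l ++ l'))
    {f g : FreeAlgebra K σ} (hf : f ∈ Sp K W) (hg : g ∈ Sp K W') : f * g ∈ Sp K W'' := by
  have h1 : f * g ∈ Sp K W * Sp K W' := Submodule.mul_mem_mul hf hg
  unfold Sp at h1 ⊢
  rw [Submodule.span_mul_span] at h1
  refine Submodule.span_mono ?_ h1
  rintro _ ⟨_, ⟨l, hl, rfl⟩, _, ⟨l', hl', rfl⟩, rfl⟩
  exact ⟨l ++ l', h l l' hl hl', word_append l l'⟩

theorem mem_Sp_all (f : FreeAlgebra K σ) : f ∈ Sp K (fun _ : List σ => True) := by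
  induction f using FreeAlgebra.induction with
  | grade0 r =>
    rw [Algebra.algebraMap_eq_smul_one, ← word_nil]
    exact Submodule.smul_mem _ _ (word_mem trivial)
  | grade1 a =>
    have : FreeAlgebra.ι K a = word K [a] := by simp [word]
    rw [this]
    exact word_mem trivial
  | mul f g hf hg => exact mul_mem_Sp (fun _ _ _ _ => trivial) hf hg
  | add f g hf hg => exact Submodule.add_mem _ hf hg

/-- It suffices to look at words. -/
theorem coeff_mem {τ : Type*} (L : σ → (FreeAlgebra K τ)[X]) {W : List σ → Prop}
    {W' : List τ → Prop} (k : ℕ) (h : ∀ l, W l → (sub L (word K l)).coeff k ∈ Sp K W')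
    {f : FreeAlgebra K σ} (hf : f ∈ Sp K W) : (sub L f).coeff k ∈ Sp K W' := by
  unfold Sp at hf
  induction hf using Submodule.span_induction with
  | mem x hx =>
    obtain ⟨l, hl, rfl⟩ := hx
    exact h l hl
  | zero => simp
  | add x y _ _ hx hy =>
    rw [map_add, Polynomial.coeff_add]
    exact Submodule.add_mem _ hx hy
  | smul a x _ hx =>
    rw [map_smul, Polynomial.coeff_smul]
    exact Submodule.smul_mem _ _ hx

theorem coef_word_symm (l : List σ) :
    FreeAlgebra.equivMonoidAlgebraFreeMonoid (R := K) (word K l) =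
      MonoidAlgebra.of K (FreeMonoid σ) (FreeMonoid.ofList l) := by
  induction l with
  | nil => simp [word, MonoidAlgebra.one_def]
  | cons a l ih =>
    rw [word_cons, map_mul, ih, FreeMonoid.ofList_cons, map_mul]
    congr 1
    simp [FreeAlgebra.equivMonoidAlgebraFreeMonoid]

/-- The coefficient of the word `l` in `f`. -/
noncomputable def cof (f : FreeAlgebra K σ) (l : List σ) : K :=
  (FreeAlgebra.equivMonoidAlgebraFreeMonoid f).coeff (FreeMonoid.ofList l)

theorem cof_of_mem {W : List σ → Prop} {f : FreeAlgebra K σ} (hf : f ∈ Sp K W) (l : List σ)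
    (hl : cof f l ≠ 0) : W l := by
  classical
  by_contra hW
  apply hl
  unfold Sp at hf
  unfold cof
  induction hf using Submodule.span_induction with
  | mem x hx =>
    obtain ⟨l', hl', rfl⟩ := hx
    rw [coef_word_symm, MonoidAlgebra.of_apply, MonoidAlgebra.coeff_single, Finsupp.single_apply,
      if_neg]
    intro e
    apply hW
    have : l' = l := congrArg FreeMonoid.toList e
    rw [← this]
    exact hl'
  | zero => simp
  | add x y _ _ hx hy =>
    have h1 : cof x l = 0 := by
      by_contra hne; exact hne (by apply hx; exact hne)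
    have h2 : cof y l = 0 := by
      by_contra hne; exact hne (by apply hy; exact hne)
    unfold cof at h1 h2
    rw [map_add, MonoidAlgebra.coeff_add, Finsupp.add_apply, h1, h2, add_zero]
  | smul a x _ hx =>
    have h1 : cof x l = 0 := by
      by_contra hne; exact hne (by apply hx; exact hne)
    unfold cof at h1
    rw [map_smul, MonoidAlgebra.coeff_smul, Finsupp.smul_apply, h1, smul_zero]

end

end Q113.HW
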